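import Pool.Agent.Y223.G.Stm2

/-!
# Project G, piece ETI: change of étale coordinates
-/

set_option autoImplicit false

namespace Pool.Agent.Y977.G

open Pool.Agent.Y223.G Pool.Agent.W418.LU2

/-- matrix of the powers of `g` -/
noncomputable def cm (p : ℕ) (g : Polynomial ℤ) (a i : Fin p) : ℤ := (g ^ (a : ℕ)).coeff i

theorem cm_mul {p : ℕ} {g h : Polynomial ℤ} (hg : g.natDegree ≤ 1)
    (hgh : g.comp h = Polynomial.X) (a k : Fin p) :
    ∑ i : Fin p, cm p g a i * cm p h i k = if a = k then 1 else 0 := by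
  have hd : (g ^ (a : ℕ)).natDegree < p := by
    refine lt_of_le_of_lt (Polynomial.natDegree_pow_le) ?_
    have := a.2
    nlinarith
  have h1 : (g ^ (a : ℕ)).comp h = Polynomial.X ^ (a : ℕ) := by
    rw [Polynomial.pow_comp, hgh]
  have h2 := congrArg (fun f => Polynomial.coeff f (k : ℕ)) h1
  rw [Polynomial.comp, Polynomial.eval₂_eq_sum_range' _ hd, Polynomial.finsetSum_coeff,
    Polynomial.coeff_X_pow] at h2
  rw [← Fin.sum_univ_eq_sum_range (fun i => (Polynomial.C ((g ^ (a : ℕ)).coeff i) * h ^ i).coeff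
    (k : ℕ)) p] at h2
  simp only [Polynomial.coeff_C_mul] at h2
  unfold cm
  rw [h2]
  by_cases hak : a = k
  · rw [if_pos hak, if_pos (by rw [hak])]
  · rw [if_neg hak, if_neg (fun h => hak (Fin.ext h.symm))]

section
variable {O : Type} [CommRing O] {p r : ℕ}

/-- linear change of the variables -/
noncomputable def lc (O : Type) [CommRing O] {p : ℕ} (r : ℕ) (c : Fin p → Fin p → ℤ) :
    MvPolynomial (Fin p × Fin r) O →ₐ[O] MvPolynomial (Fin p × Fin r) O :=
  MvPolynomial.aeval fun aj => ∑ i : Fin p, (c aj.1 i : MvPolynomial (Fin p × Fin r) O) *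
    MvPolynomial.X (i, aj.2)

theorem lc_X (c : Fin p → Fin p → ℤ) (aj : Fin p × Fin r) :
    lc O r c (MvPolynomial.X aj) = ∑ i : Fin p, (c aj.1 i : MvPolynomial (Fin p × Fin r) O) *
    MvPolynomial.X (i, aj.2) := by
  rw [lc, MvPolynomial.aeval_X]

theorem lc_comp {c d : Fin p → Fin p → ℤ}
    (h : ∀ a k, ∑ i : Fin p, c a i * d i k = if a = k then 1 else 0) :
    (lc O r d).comp (lc O r c) = AlgHom.id O _ := by
  refine MvPolynomial.algHom_ext fun aj => ?_
  rw [AlgHom.comp_apply, lc_X, map_sum]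
  simp only [map_mul, map_intCast]
  have h1 : ∀ i : Fin p, (c aj.1 i : MvPolynomial (Fin p × Fin r) O) *
      (lc O r d) (MvPolynomial.X (i, aj.2)) = ∑ k : Fin p,
      ((c aj.1 i * d i k : ℤ) : MvPolynomial (Fin p × Fin r) O) * MvPolynomial.X (k, aj.2) := by
    intro i
    rw [lc_X, Finset.mul_sum]
    refine Finset.sum_congr rfl fun k _ => ?_
    push_cast
    ring
  simp only [h1]
  rw [Finset.sum_comm]
  have h2 : ∀ k : Fin p, ∑ i : Fin p, ((c aj.1 i * d i k : ℤ) : MvPolynomial (Fin p × Fin r) O) *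
      MvPolynomial.X (k, aj.2) = if aj.1 = k then MvPolynomial.X (k, aj.2) else 0 := by
    intro k
    rw [← Finset.sum_mul, ← Int.cast_sum, h]
    by_cases hk : aj.1 = k
    · rw [if_pos hk, if_pos hk]; simp
    · rw [if_neg hk, if_neg hk]; simp
  simp only [h2]
  rw [Finset.sum_ite_eq, if_pos (Finset.mem_univ _)]
  rfl

theorem lc_bij {c d : Fin p → Fin p → ℤ}
    (h : ∀ a k, ∑ i : Fin p, c a i * d i k = if a = k then 1 else 0)
    (h' : ∀ a k, ∑ i : Fin p, d a i * c i k = if a = k then 1 else 0) :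
    Function.Bijective (lc O r c) := by
  refine Function.bijective_iff_has_inverse.2 ⟨lc O r d, fun f => ?_, fun f => ?_⟩
  · exact DFunLike.congr_fun (lc_comp (O := O) (r := r) h) f
  · exact DFunLike.congr_fun (lc_comp (O := O) (r := r) h') f

/-- the iterates of `σ - 1` in terms of the iterates of `σ` -/
theorem df_iter {C : Type} [CommRing C] (σ : C →+* C) (a : Fin p) (x : C) :
    (df σ)^[(a : ℕ)] x = ∑ i : Fin p, (cm p (Polynomial.X - 1) a i : C) * σ^[(i : ℕ)] x := by
  let s : Module.End ℤ C := (σ : C →+* C).toAddMonoidHom.toIntLinearMap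
  have e1 : ∀ (n : ℕ) (y : C), (s ^ n) y = σ^[n] y := by
    intro n y
    rw [Module.End.pow_apply]
    rfl
  have e2 : ∀ (n : ℕ) (y : C), ((s - 1) ^ n) y = (df σ)^[n] y := by
    intro n y
    rw [Module.End.pow_apply]
    rfl
  have hd : ((Polynomial.X - 1 : Polynomial ℤ) ^ (a : ℕ)).natDegree < p := by
    refine lt_of_le_of_lt (Polynomial.natDegree_pow_le) ?_
    have h1 : (Polynomial.X - 1 : Polynomial ℤ).natDegree ≤ 1 := by
      have := Polynomial.natDegree_X_sub_C (R := ℤ) 1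
      rw [map_one] at this
      exact this.le
    have := a.2
    nlinarith
  have h1 := Polynomial.aeval_eq_sum_range' hd s
  rw [map_pow, map_sub, Polynomial.aeval_X, map_one] at h1
  have h2 := DFunLike.congr_fun h1 x
  rw [e2, LinearMap.sum_apply] at h2
  rw [h2, ← Fin.sum_univ_eq_sum_range (fun i => (((Polynomial.X - 1 : Polynomial ℤ) ^
    (a : ℕ)).coeff i • s ^ i) x) p]
  refine Finset.sum_congr rfl fun i _ => ?_
  rw [LinearMap.smul_apply, e1, zsmul_eq_mul]
  rfl

theorem X_sub_comp : (Polynomial.X - 1 : Polynomial ℤ).comp (Polynomial.X + 1) =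
    Polynomial.X := by
  simp

theorem X_add_comp : (Polynomial.X + 1 : Polynomial ℤ).comp (Polynomial.X - 1) =
    Polynomial.X := by
  simp

theorem deg_sub : (Polynomial.X - 1 : Polynomial ℤ).natDegree ≤ 1 := by
  have := Polynomial.natDegree_X_sub_C (R := ℤ) 1
  rw [map_one] at this
  exact this.le

theorem deg_add : (Polynomial.X + 1 : Polynomial ℤ).natDegree ≤ 1 := by
  have := Polynomial.natDegree_X_add_C (R := ℤ) 1
  rw [map_one] at this
  exact this.le

end

theorem etAt_df {O K : Type} [CommRing O] [Field K] [Algebra O K] (C : Subalgebra O K)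
    (Q : Ideal C) (σ : C →+* C) (p r : ℕ) (u : Fin r → C)
    (h : EtAt C Q (fun ij : Fin p × Fin r => σ^[ij.1] (u ij.2))) :
    EtAt C Q (fun aj : Fin p × Fin r => (df σ)^[(aj.1 : ℕ)] (u aj.2)) := by
  obtain ⟨g, hg, het⟩ := h
  refine ⟨g, hg, ?_⟩
  set c := cm p (Polynomial.X - 1) with hc
  have hb : Function.Bijective (lc O r c) :=
    lc_bij (cm_mul deg_sub X_sub_comp) (cm_mul deg_add X_add_comp)
  have h1 : (MvPolynomial.aeval (fun aj : Fin p × Fin r => (df σ)^[(aj.1 : ℕ)] (u aj.2)) :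
      MvPolynomial (Fin p × Fin r) O →ₐ[O] C) =
      (MvPolynomial.aeval (fun ij : Fin p × Fin r => σ^[ij.1] (u ij.2))).comp (lc O r c) := by
    refine MvPolynomial.algHom_ext fun aj => ?_
    rw [MvPolynomial.aeval_X, AlgHom.comp_apply, lc_X, map_sum, df_iter]
    refine Finset.sum_congr rfl fun i _ => ?_
    rw [map_mul, map_intCast, MvPolynomial.aeval_X]
  have h2 : ((algebraMap C (Localization.Away g)).comp (MvPolynomial.aeval
      (fun aj : Fin p × Fin r => (df σ)^[(aj.1 : ℕ)] (u aj.2)) :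
      MvPolynomial (Fin p × Fin r) O →ₐ[O] C).toRingHom) =
      ((algebraMap C (Localization.Away g)).comp (MvPolynomial.aeval
      (fun ij : Fin p × Fin r => σ^[ij.1] (u ij.2)) :
      MvPolynomial (Fin p × Fin r) O →ₐ[O] C).toRingHom).comp (lc O r c).toRingHom := by
    rw [h1]
    rfl
  rw [h2]
  exact RingHom.Etale.stableUnderComposition _ _ (RingHom.Etale.of_bijective hb) het

theorem t_ETI : S_IND → S_ETI := by
  intro hIND O K _ _ _ _ _ C hft hreg Q _ σ hσ p r hp u het 𝔓 h𝔓 h𝔓0 π hπ hπ2 hQ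
  have h := hIND O K C hft hreg Q p r hp (fun a j => (df σ)^[a] (u j))
    (etAt_df C Q σ p r u het) 𝔓 h𝔓 h𝔓0 π hπ hπ2 hQ ?_
  · convert h using 2 with i
    rcases i with _ | ⟨j, a⟩
    · rfl
    · rfl
  · intro a j ha _
    obtain ⟨b, rfl⟩ : ∃ b, a = b + 1 := ⟨a - 1, by omega⟩
    rw [Function.iterate_succ_apply']
    exact hσ _

end Pool.Agent.Y977.G
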